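import Pool.Agent.H297R2.LG.Defs
import Pool.Agent.H382P.EFW

/-! Task 03 (ZEF) of helper297's blueprint: the explicit formula for the smoothed number of zeros,
conditional on the statements of tasks 01 and 02. -/

open Complex Filter Topology Set MeasureTheory

namespace LG

open SG (hh nn dd dl ord NZ)
open SP (RHs ZZ mu wt Mk Par Eb PS chi qq tt)

/-- statement of task 01 -/
def EFXs : Prop := ∃ C T0 : ℝ, 0 < C ∧ 10 ≤ T0 ∧ ∀ T : ℝ, T0 ≤ T → ∀ u t : ℝ,
    0 ≤ u → u ≤ Real.log T ^ 2 / 16 → T + Real.log T ≤ t → t ≤ 2 * T - Real.log T →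
    ‖(∑ᶠ s ∈ ZZ T, (mu s : ℂ) * (Real.exp (-(s.im - t) ^ 2 / 2) : ℂ) *
        cexp (I * ((u * (s.im - t) : ℝ) : ℂ))) -
      (1 / Real.sqrt (2 * Real.pi) : ℝ) * ((Real.log T * Real.exp (-u ^ 2 / 2) : ℝ) -
        ∑' n : ℕ, (ArithmeticFunction.vonMangoldt n : ℂ) * (n : ℂ) ^ (-(1 / 2 : ℂ) - I * t) *
          (Real.exp (-(u - Real.log n) ^ 2 / 2) : ℂ))‖ ≤ C * Real.exp (-u)

lemma ze_efa_eq (t : ℝ) (n : ℕ) : SP.efa t n =
    ((ArithmeticFunction.vonMangoldt n * (n : ℝ) ^ (-(1 / 2) : ℝ) : ℝ) : ℂ) *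
      cexp (-(I * ((t * Real.log n : ℝ) : ℂ))) := by
  rcases Nat.eq_zero_or_pos n with h | h
  · subst h
    simp [SP.efa]
  have hn : (n : ℂ) ≠ 0 := by exact_mod_cast h.ne'
  unfold SP.efa
  have h1 : (n : ℂ) ^ (-(1 / 2 : ℂ) - I * t) =
      (n : ℂ) ^ (-(1 / 2 : ℂ)) * (n : ℂ) ^ (-(I * t)) := by
    rw [← Complex.cpow_add _ _ hn]
    ring_nf
  have h2 : (n : ℂ) ^ (-(1 / 2 : ℂ)) = (((n : ℝ) ^ (-(1 / 2) : ℝ) : ℝ) : ℂ) := by
    rw [Complex.ofReal_cpow (Nat.cast_nonneg n)]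
    push_cast
    ring_nf
  have h3 : (n : ℂ) ^ (-(I * t)) = cexp (-(I * ((t * Real.log n : ℝ) : ℂ))) := by
    rw [Complex.cpow_def_of_ne_zero hn, ← Complex.ofReal_natCast, ← Complex.ofReal_log
      (Nat.cast_nonneg n)]
    congr 1
    push_cast
    ring
  rw [h1, h2, h3]
  push_cast
  ring

lemma ze_exp_re (x : ℝ) : (cexp (I * ((x : ℝ) : ℂ))).re = Real.cos x := by
  rw [mul_comm, Complex.exp_ofReal_mul_I_re]

theorem ZEF_of (hEFX : EFXs) (A c : ℝ) (hc : 0 < c)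
    (hgc : Continuous (gh A c)) (hgl : ∀ v : ℝ, |gh A c v| ≤ c)
    (hker : ∃ C : ℝ, 0 < C ∧ ∀ L x : ℝ, 1 ≤ L →
      |gK A c (L * x) - (2 / L) * ∫ u in (0 : ℝ)..(L ^ 2 / 16), gh A c (u / L) * Real.cos (u * x)| ≤
      C / L ^ 2)
    (hmain : ∃ C : ℝ, 0 < C ∧ ∀ L : ℝ, 4 ≤ L →
      |(2 / L) * ((1 / Real.sqrt (2 * Real.pi)) * ∫ u in (0 : ℝ)..(L ^ 2 / 16),
        gh A c (u / L) * (L * Real.exp (-u ^ 2 / 2))) - c| ≤ C / L) :
    ∃ C T0 : ℝ, 0 < C ∧ 10 ≤ T0 ∧
    ∀ T : ℝ, T0 ≤ T → ∀ t : ℝ, T + Real.log T ≤ t → t ≤ 2 * T - Real.log T →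
    |Zs A c T t - (c - (2 / Real.log T) *
      (∑' n : ℕ, (lk A c T n : ℂ) * cexp (-(I * ((t * Real.log n : ℝ) : ℂ)))).re)| ≤
      C / Real.log T := by
  classical
  obtain ⟨C0, T0, hC0, hT0, hEF⟩ := hEFX
  obtain ⟨C1, hC1, hker⟩ := hker
  obtain ⟨C2, hC2, hmain⟩ := hmain
  -- constant for the prime sum at `u = 0`
  have hG : Summable (SP.ppG (1 / 4)) := SP.ppG_summable _ (by norm_num)
  set G0 : ℝ := ∑' n, SP.ppG (1 / 4) n with hG0
  have hG0' : 0 ≤ G0 := by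
    apply tsum_nonneg
    intro n
    unfold SP.ppG
    have : 0 ≤ Real.log n := Real.log_natCast_nonneg n
    positivity
  refine ⟨C1 * (C0 + 1 + G0) + C2 + 2 * c * C0, max T0 (Real.exp 4), by positivity,
    hT0.trans (le_max_left _ _), ?_⟩
  intro T hT t ht1 ht2
  have hTT0 : T0 ≤ T := (le_max_left _ _).trans hT
  have hT10 : 10 ≤ T := hT0.trans hTT0
  have hL4 : 4 ≤ Real.log T := by
    rw [Real.le_log_iff_exp_le (by linarith)]
    exact (le_max_right _ _).trans hT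
  set L : ℝ := Real.log T with hLdef
  have hL0 : 0 < L := by linarith
  set R : ℝ := L ^ 2 / 16 with hR
  have hR0 : 0 ≤ R := by positivity
  -- zero side
  have hfin : (ZZ T).Finite := H370.zset_finite H370.good_zeta T (2 * T) (by linarith)
  set w : ℂ → ℝ := fun s => (mu s : ℝ) * Real.exp (-(s.im - t) ^ 2 / 2) with hw
  have hw0 : ∀ s, 0 ≤ w s := fun s => by positivity
  set Z : ℝ → ℂ := fun u => ∑ s ∈ hfin.toFinset, (mu s : ℂ) *
      (Real.exp (-(s.im - t) ^ 2 / 2) : ℂ) * cexp (I * ((u * (s.im - t) : ℝ) : ℂ)) with hZ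
  have hZsum : ∀ u, (∑ᶠ s ∈ ZZ T, (mu s : ℂ) * (Real.exp (-(s.im - t) ^ 2 / 2) : ℂ) *
        cexp (I * ((u * (s.im - t) : ℝ) : ℂ))) = Z u := by
    intro u
    exact finsum_mem_eq_finite_toFinset_sum _ hfin
  have hZc : Continuous Z := by
    rw [hZ]
    fun_prop
  have hZre : ∀ u, (Z u).re = ∑ s ∈ hfin.toFinset, w s * Real.cos (u * (s.im - t)) := by
    intro u
    rw [hZ, Complex.re_sum]
    apply Finset.sum_congr rfl
    intro s _
    have : (mu s : ℂ) * (Real.exp (-(s.im - t) ^ 2 / 2) : ℂ) = ((w s : ℝ) : ℂ) := by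
      rw [hw]
      push_cast
      ring
    rw [this, Complex.re_ofReal_mul, ze_exp_re]
  -- prime side
  set P : ℝ → ℂ := fun u => ∑' n : ℕ, SP.efa t n * (Real.exp (-(u - Real.log n) ^ 2 / 2) : ℂ)
    with hP
  have hBs : Summable (fun n => Real.exp (R ^ 2 / 2) * SP.ppG (1 / 4) n) := hG.mul_left _
  have hPsum : ∀ u ∈ Set.Icc 0 R, Summable (fun n : ℕ => SP.efa t n *
      (Real.exp (-(u - Real.log n) ^ 2 / 2) : ℂ)) := fun u hu =>
    Summable.of_norm_bounded hBs (fun n => SP.efa_bound t R u hu n)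
  have hPc : ContinuousOn P (Set.Icc 0 R) := by
    apply continuousOn_tsum (u := fun n => Real.exp (R ^ 2 / 2) * SP.ppG (1 / 4) n)
    · intro n
      apply Continuous.continuousOn
      fun_prop
    · exact hBs
    · intro n u hu
      exact SP.efa_bound t R u hu n
  have hEF' : ∀ u ∈ Set.Icc 0 R, ‖Z u - (1 / Real.sqrt (2 * Real.pi) : ℝ) *
      ((L * Real.exp (-u ^ 2 / 2) : ℝ) - P u)‖ ≤ C0 * Real.exp (-u) := by
    intro u hu
    have := hEF T hTT0 u t hu.1 hu.2 ht1 ht2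
    rw [hZsum] at this
    exact this
  -- the total mass
  set M0 : ℝ := ∑ s ∈ hfin.toFinset, w s with hM0
  have hM0' : 0 ≤ M0 := Finset.sum_nonneg fun s _ => hw0 s
  have hM0L : M0 ≤ (C0 + 1 + G0) * L := by
    have h1 := hEF' 0 ⟨le_rfl, hR0⟩
    have h2 : (Z 0).re = M0 := by
      rw [hZre]
      simp [hM0]
    have h3 : ‖P 0‖ ≤ G0 := by
      rw [hP, hG0]
      apply tsum_of_norm_bounded hG.hasSum
      intro n
      have := SP.efa_bound t 0 0 ⟨le_rfl, le_rfl⟩ n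
      simpa using this
    have h4 : M0 ≤ ‖Z 0‖ := by
      rw [← h2]
      exact (le_abs_self _).trans (Complex.abs_re_le_norm _)
    have h5 : ‖Z 0‖ ≤ ‖Z 0 - (1 / Real.sqrt (2 * Real.pi) : ℝ) *
      ((L * Real.exp (-(0:ℝ) ^ 2 / 2) : ℝ) - P 0)‖ + ‖((1 / Real.sqrt (2 * Real.pi) : ℝ) : ℂ) *
      ((L * Real.exp (-(0:ℝ) ^ 2 / 2) : ℝ) - P 0)‖ := by
      have := norm_add_le (Z 0 - (1 / Real.sqrt (2 * Real.pi) : ℝ) *
        ((L * Real.exp (-(0:ℝ) ^ 2 / 2) : ℝ) - P 0)) (((1 / Real.sqrt (2 * Real.pi) : ℝ) : ℂ) *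
        ((L * Real.exp (-(0:ℝ) ^ 2 / 2) : ℝ) - P 0))
      rwa [sub_add_cancel] at this
    have h6 : ‖((1 / Real.sqrt (2 * Real.pi) : ℝ) : ℂ) *
      ((L * Real.exp (-(0:ℝ) ^ 2 / 2) : ℝ) - P 0)‖ ≤ L + G0 := by
      rw [norm_mul, Complex.norm_real, Real.norm_of_nonneg (by positivity)]
      have h7 : ‖(((L * Real.exp (-(0:ℝ) ^ 2 / 2) : ℝ) : ℂ) - P 0)‖ ≤ L + G0 := by
        refine (norm_sub_le _ _).trans (add_le_add ?_ h3)
        rw [Complex.norm_real, Real.norm_of_nonneg (by positivity)]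
        simp
      have h8 := SP.pp_inv_sqrt_le
      have h9 := norm_nonneg (((L * Real.exp (-(0:ℝ) ^ 2 / 2) : ℝ) : ℂ) - P 0)
      calc 1 / Real.sqrt (2 * Real.pi) * ‖(((L * Real.exp (-(0:ℝ) ^ 2 / 2) : ℝ) : ℂ) - P 0)‖
          ≤ 1 * ‖(((L * Real.exp (-(0:ℝ) ^ 2 / 2) : ℝ) : ℂ) - P 0)‖ :=
            mul_le_mul_of_nonneg_right h8 h9
        _ ≤ L + G0 := by rw [one_mul]; exact h7
    have h10 : C0 * Real.exp (-(0:ℝ)) = C0 := by simp
    rw [h10] at h1
    have : C0 ≤ C0 * L := by nlinarith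
    have : G0 ≤ G0 * L := by nlinarith
    nlinarith
  -- step 1: replace `gK` by its Fourier representation
  have hZs : Zs A c T t = ∑ s ∈ hfin.toFinset, w s * gK A c (L * (s.im - t)) := by
    unfold Zs
    exact finsum_mem_eq_finite_toFinset_sum _ hfin
  have hint : ∫ u in (0 : ℝ)..R, gh A c (u / L) * (Z u).re =
      ∑ s ∈ hfin.toFinset, w s * ∫ u in (0 : ℝ)..R, gh A c (u / L) * Real.cos (u * (s.im - t)) := by
    have h1 : ∀ u, gh A c (u / L) * (Z u).re = ∑ s ∈ hfin.toFinset,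
        w s * (gh A c (u / L) * Real.cos (u * (s.im - t))) := by
      intro u
      rw [hZre, Finset.mul_sum]
      apply Finset.sum_congr rfl
      intro s _
      ring
    simp_rw [h1]
    rw [intervalIntegral.integral_finsetSum]
    · apply Finset.sum_congr rfl
      intro s _
      rw [intervalIntegral.integral_const_mul]
    · intro s _
      apply Continuous.intervalIntegrable
      fun_prop
  have hstep1 : |Zs A c T t - (2 / L) * ∫ u in (0 : ℝ)..R, gh A c (u / L) * (Z u).re| ≤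
      C1 * (C0 + 1 + G0) / L := by
    rw [hint, hZs, Finset.mul_sum, ← Finset.sum_sub_distrib]
    refine (Finset.abs_sum_le_sum_abs _ _).trans ?_
    have h1 : ∀ s ∈ hfin.toFinset, |w s * gK A c (L * (s.im - t)) -
        2 / L * (w s * ∫ u in (0 : ℝ)..R, gh A c (u / L) * Real.cos (u * (s.im - t)))| ≤
        w s * (C1 / L ^ 2) := by
      intro s _
      have h2 : w s * gK A c (L * (s.im - t)) -
        2 / L * (w s * ∫ u in (0 : ℝ)..R, gh A c (u / L) * Real.cos (u * (s.im - t))) =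
        w s * (gK A c (L * (s.im - t)) -
        2 / L * ∫ u in (0 : ℝ)..R, gh A c (u / L) * Real.cos (u * (s.im - t))) := by ring
      rw [h2, abs_mul, abs_of_nonneg (hw0 s)]
      exact mul_le_mul_of_nonneg_left (hker L (s.im - t) (by linarith)) (hw0 s)
    refine (Finset.sum_le_sum h1).trans ?_
    rw [← Finset.sum_mul, ← hM0]
    have h3 : M0 * (C1 / L ^ 2) ≤ ((C0 + 1 + G0) * L) * (C1 / L ^ 2) :=
      mul_le_mul_of_nonneg_right hM0L (by positivity)
    refine h3.trans (le_of_eq ?_)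
    field_simp
  -- step 2: the explicit formula
  have hps : ((∑' n : ℕ, (lk A c T n : ℂ) * cexp (-(I * ((t * Real.log n : ℝ) : ℂ))))) =
      ∫ u in (0 : ℝ)..R, (1 / Real.sqrt (2 * Real.pi) : ℝ) * (((gh A c (u / L) : ℝ) : ℂ) * P u) := by
    rw [intervalIntegral.integral_const_mul]
    have h1 : HasSum (fun n : ℕ => ∫ u in (0 : ℝ)..R, ((gh A c (u / L) : ℝ) : ℂ) *
        (SP.efa t n * (Real.exp (-(u - Real.log n) ^ 2 / 2) : ℂ)))
        (∫ u in (0 : ℝ)..R, ((gh A c (u / L) : ℝ) : ℂ) * P u) := by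
      apply intervalIntegral.hasSum_integral_of_dominated_convergence
        (bound := fun n _ => c * (Real.exp (R ^ 2 / 2) * SP.ppG (1 / 4) n))
      · intro n
        apply Continuous.aestronglyMeasurable
        fun_prop
      · intro n
        refine Eventually.of_forall fun u hu => ?_
        rw [Set.uIoc_of_le hR0] at hu
        rw [norm_mul, Complex.norm_real, Real.norm_eq_abs]
        exact mul_le_mul (hgl _) (SP.efa_bound t R u ⟨hu.1.le, hu.2⟩ n)
          (norm_nonneg _) hc.le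
      · exact Eventually.of_forall fun u _ => hBs.mul_left c
      · exact intervalIntegrable_const
      · refine Eventually.of_forall fun u hu => ?_
        rw [Set.uIoc_of_le hR0] at hu
        exact (hPsum u ⟨hu.1.le, hu.2⟩).hasSum.mul_left _
    have h2 := h1.mul_left (((1 / Real.sqrt (2 * Real.pi) : ℝ) : ℂ))
    rw [← h2.tsum_eq]
    apply tsum_congr
    intro n
    have h3 : ∀ u : ℝ, ((gh A c (u / L) : ℝ) : ℂ) *
        (SP.efa t n * (Real.exp (-(u - Real.log n) ^ 2 / 2) : ℂ)) =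
        SP.efa t n * (((gh A c (u / L) * Real.exp (-(u - Real.log n) ^ 2 / 2) : ℝ)) : ℂ) := by
      intro u
      push_cast
      ring
    simp_rw [h3]
    rw [intervalIntegral.integral_const_mul, intervalIntegral.integral_ofReal, ze_efa_eq]
    unfold lk bk
    push_cast
    ring
  have hcoe : Continuous (fun u : ℝ => gh A c (u / L)) := hgc.comp (by fun_prop)
  have hI1 : IntervalIntegrable (fun u => ((gh A c (u / L) : ℝ) : ℂ) * Z u) volume 0 R := by
    apply Continuous.intervalIntegrable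
    fun_prop
  have hI2 : IntervalIntegrable (fun u => (1 / Real.sqrt (2 * Real.pi) : ℝ) *
      (((gh A c (u / L) : ℝ) : ℂ) * P u)) volume 0 R := by
    apply ContinuousOn.intervalIntegrable
    rw [Set.uIcc_of_le hR0]
    refine continuousOn_const.mul (ContinuousOn.mul ?_ hPc)
    apply Continuous.continuousOn
    fun_prop
  have hI3 : IntervalIntegrable (fun u => ((((1 / Real.sqrt (2 * Real.pi)) *
      (gh A c (u / L) * (L * Real.exp (-u ^ 2 / 2))) : ℝ)) : ℂ)) volume 0 R := by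
    apply Continuous.intervalIntegrable
    fun_prop
  have hstep2 : ‖(∫ u in (0 : ℝ)..R, ((gh A c (u / L) : ℝ) : ℂ) * Z u) -
      ((∫ u in (0 : ℝ)..R, ((((1 / Real.sqrt (2 * Real.pi)) *
      (gh A c (u / L) * (L * Real.exp (-u ^ 2 / 2))) : ℝ)) : ℂ)) -
      ∫ u in (0 : ℝ)..R, (1 / Real.sqrt (2 * Real.pi) : ℝ) *
        (((gh A c (u / L) : ℝ) : ℂ) * P u))‖ ≤ c * C0 := by
    rw [← intervalIntegral.integral_sub hI3 hI2, ← intervalIntegral.integral_sub hI1 (hI3.sub hI2)]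
    have hpt : ∀ u ∈ Set.Icc 0 R, ‖((gh A c (u / L) : ℝ) : ℂ) * Z u -
        (((((1 / Real.sqrt (2 * Real.pi)) *
      (gh A c (u / L) * (L * Real.exp (-u ^ 2 / 2))) : ℝ)) : ℂ) -
        (1 / Real.sqrt (2 * Real.pi) : ℝ) * (((gh A c (u / L) : ℝ) : ℂ) * P u))‖ ≤
        c * C0 * Real.exp (-u) := by
      intro u hu
      have h1 : ((gh A c (u / L) : ℝ) : ℂ) * Z u -
        (((((1 / Real.sqrt (2 * Real.pi)) *
        (gh A c (u / L) * (L * Real.exp (-u ^ 2 / 2))) : ℝ)) : ℂ) -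
        (1 / Real.sqrt (2 * Real.pi) : ℝ) * (((gh A c (u / L) : ℝ) : ℂ) * P u)) =
        ((gh A c (u / L) : ℝ) : ℂ) * (Z u - (1 / Real.sqrt (2 * Real.pi) : ℝ) *
          ((L * Real.exp (-u ^ 2 / 2) : ℝ) - P u)) := by
        push_cast
        ring
      rw [h1, norm_mul, Complex.norm_real, Real.norm_eq_abs, mul_assoc]
      exact mul_le_mul (hgl _) (hEF' u hu) (norm_nonneg _) hc.le
    have hIb : IntervalIntegrable (fun u => c * C0 * Real.exp (-u)) volume 0 R := by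
      apply Continuous.intervalIntegrable
      fun_prop
    refine (intervalIntegral.norm_integral_le_of_norm_le hR0
      (Eventually.of_forall fun u hu => hpt u ⟨hu.1.le, hu.2⟩) hIb).trans ?_
    rw [intervalIntegral.integral_const_mul]
    have : ∫ u in (0 : ℝ)..R, Real.exp (-u) ≤ 1 := by
      rw [intervalIntegral.integral_comp_neg (fun u => Real.exp u), integral_exp]
      have := Real.exp_pos (-R)
      simp
      exact this.le
    have h0 : 0 ≤ c * C0 := by positivity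
    nlinarith
  -- real parts
  have hre1 : (∫ u in (0 : ℝ)..R, ((gh A c (u / L) : ℝ) : ℂ) * Z u).re =
      ∫ u in (0 : ℝ)..R, gh A c (u / L) * (Z u).re := by
    rw [← Complex.reCLM_apply, ← Complex.reCLM.intervalIntegral_comp_comm hI1]
    apply intervalIntegral.integral_congr
    intro u _
    simp [Complex.reCLM_apply]
  have hre2 : ((∫ u in (0 : ℝ)..R, ((((1 / Real.sqrt (2 * Real.pi)) *
      (gh A c (u / L) * (L * Real.exp (-u ^ 2 / 2))) : ℝ)) : ℂ)) : ℂ) =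
      (((1 / Real.sqrt (2 * Real.pi)) * ∫ u in (0 : ℝ)..R,
        gh A c (u / L) * (L * Real.exp (-u ^ 2 / 2)) : ℝ) : ℂ) := by
    rw [intervalIntegral.integral_ofReal, intervalIntegral.integral_const_mul]
  rw [← hps, hre2] at hstep2
  have hstep3 := (Complex.abs_re_le_norm _).trans hstep2
  rw [Complex.sub_re, Complex.sub_re, Complex.ofReal_re, hre1] at hstep3
  have hstep4 := hmain L hL4
  rw [← hR] at hstep4
  set X1 := ∫ u in (0 : ℝ)..R, gh A c (u / L) * (Z u).re with hX1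
  set X2 := (1 / Real.sqrt (2 * Real.pi)) * ∫ u in (0 : ℝ)..R,
        gh A c (u / L) * (L * Real.exp (-u ^ 2 / 2)) with hX2
  set X3 := (∑' n : ℕ, (lk A c T n : ℂ) * cexp (-(I * ((t * Real.log n : ℝ) : ℂ)))).re with hX3
  have h5 : |(2 / L) * (X1 - (X2 - X3))| ≤ 2 * c * C0 / L := by
    rw [abs_mul, abs_of_pos (by positivity : 0 < 2 / L)]
    calc 2 / L * |X1 - (X2 - X3)| ≤ 2 / L * (c * C0) :=
          mul_le_mul_of_nonneg_left hstep3 (by positivity)
      _ = 2 * c * C0 / L := by ring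
  have h6 : Zs A c T t - (c - (2 / L) * X3) = (Zs A c T t - (2 / L) * X1) +
      (2 / L) * (X1 - (X2 - X3)) + ((2 / L) * X2 - c) := by ring
  rw [h6]
  refine (abs_add_three _ _ _).trans ?_
  have h7 : (C1 * (C0 + 1 + G0) + C2 + 2 * c * C0) / L = C1 * (C0 + 1 + G0) / L +
      2 * c * C0 / L + C2 / L := by ring
  rw [h7]
  exact add_le_add (add_le_add hstep1 h5) hstep4

end LG
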